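import Pool.Agent.Helper96.QT.Def

/-!
QT8: the dual side.
-/

namespace Pool.Agent.QT

open Real Filter Topology MeasureTheory Set

private theorem exp_abs_int {b : ℝ} (hb : 0 < b) : Integrable (fun y : ℝ => Real.exp (-(b * |y|))) := by
  have h1 : IntegrableOn (fun y : ℝ => Real.exp (-(b * |y|))) (Set.Ioi 0) := by
    have h := exp_neg_integrableOn_Ioi 0 hb
    refine (integrableOn_congr_fun ?_ measurableSet_Ioi).mp h
    intro x hx
    simp only
    rw [abs_of_pos hx]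
    congr 1
    ring
  have h2 : IntegrableOn (fun y : ℝ => Real.exp (-(b * |y|))) (Set.Iic 0) := by
    have h3 : IntegrableOn (fun y : ℝ => Real.exp (b * y)) (Set.Iic 0) := integrableOn_exp_mul_Iic hb 0
    refine (integrableOn_congr_fun ?_ measurableSet_Iic).mp h3
    intro x hx
    simp only
    rw [abs_of_nonpos hx]
    congr 1
    ring
  have h3 := h2.union h1
  rw [Set.Iic_union_Ioi] at h3
  exact integrableOn_univ.mp h3

private theorem one_sq_le (y : ℝ) : 1 + y ^ 2 ≤ 129 * Real.exp (|y| / 8) := by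
  have h1 : |y| / 8 + 1 ≤ Real.exp (|y| / 8) := Real.add_one_le_exp _
  have h0 : 0 ≤ |y| / 8 := by positivity
  have h2 : (|y| / 8) ^ 2 / 2 ≤ Real.exp (|y| / 8) := by
    have := Real.quadratic_le_exp_of_nonneg h0
    nlinarith
  have h3 : (|y| / 8) ^ 2 = y ^ 2 / 64 := by
    rw [div_pow, sq_abs]; norm_num
  rw [h3] at h2
  have h4 : 1 ≤ Real.exp (|y| / 8) := by linarith
  nlinarith

private theorem c_nonneg {h : ℝ → ℂ} {c : ℝ} (h1 : ∀ y, ‖h y‖ ≤ c * Real.exp (-(|y| / 4))) : 0 ≤ c := by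
  have := (norm_nonneg _).trans (h1 0)
  simpa using this

/-- exponential weights -/
private theorem wt_int {h : ℝ → ℂ} (hc : Continuous h) {c : ℝ} (h1 : ∀ y, ‖h y‖ ≤ c * Real.exp (-(|y| / 4)))
    {z : ℂ} (hz : |z.re| < 1 / 4) : Integrable (fun y : ℝ => Complex.exp (-z * y) * h y) := by
  have hb : 0 < 1 / 4 - |z.re| := by linarith
  refine ((exp_abs_int hb).const_mul c).mono' ?_ (Filter.Eventually.of_forall fun y => ?_)
  · exact (Continuous.mul (by fun_prop) hc).aestronglyMeasurable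
  · rw [norm_mul, Complex.norm_exp]
    have e1 : (-z * (y : ℂ)).re = -(z.re * y) := by simp
    rw [e1]
    have e2 : -(z.re * y) ≤ |z.re| * |y| := by
      rw [← abs_mul]; exact neg_le_abs _
    have hc0 := c_nonneg h1
    calc Real.exp (-(z.re * y)) * ‖h y‖ ≤ Real.exp (|z.re| * |y|) * (c * Real.exp (-(|y| / 4))) := by
          exact mul_le_mul (Real.exp_le_exp.mpr e2) (h1 y) (norm_nonneg _) (Real.exp_nonneg _)
      _ = c * (Real.exp (|z.re| * |y|) * Real.exp (-(|y| / 4))) := by ring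
      _ = c * Real.exp (-((1 / 4 - |z.re|) * |y|)) := by
          rw [← Real.exp_add]; congr 2; ring

private theorem sq_int {h : ℝ → ℂ} (hc : Continuous h) {c : ℝ} (h1 : ∀ y, ‖h y‖ ≤ c * Real.exp (-(|y| / 4))) :
    Integrable (fun y : ℝ => (1 + y ^ 2) * ‖h y‖) := by
  refine ((exp_abs_int (b := 1 / 8) (by norm_num)).const_mul (129 * c)).mono' ?_ (Filter.Eventually.of_forall fun y => ?_)
  · exact (Continuous.mul (by fun_prop) hc.norm).aestronglyMeasurable
  · have hc0 := c_nonneg h1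
    rw [Real.norm_of_nonneg (by positivity)]
    calc (1 + y ^ 2) * ‖h y‖ ≤ (129 * Real.exp (|y| / 8)) * (c * Real.exp (-(|y| / 4))) := by
          exact mul_le_mul (one_sq_le y) (h1 y) (norm_nonneg _) (by positivity)
      _ = 129 * c * (Real.exp (|y| / 8) * Real.exp (-(|y| / 4))) := by ring
      _ = 129 * c * Real.exp (-(1 / 8 * |y|)) := by
          rw [← Real.exp_add]; congr 2; ring

/-- the product is integrable -/
private theorem prod_int {F : ℝ → ℝ} (hm : Measurable F) (h0 : ∀ t < 0, F t = 0) {h : ℝ → ℂ} (hc : Continuous h)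
    (Λ : ℝ) {w : ℝ → ℂ} (hw : Continuous w) {g : ℝ → ℝ}
    (hi : ∀ t, 0 ≤ t → Integrable (fun u : ℝ => w u * h (u + t + Λ)))
    (hg : ∀ t, 0 ≤ t → ∫ u : ℝ, ‖w u * h (u + t + Λ)‖ ≤ g t)
    (hFg : Integrable (fun t : ℝ => |F t| * g t)) :
    Integrable (fun p : ℝ × ℝ => w p.1 * ((F p.2 : ℂ) * h (p.1 + p.2 + Λ))) (volume.prod volume) := by
  have hmeas : AEStronglyMeasurable (fun p : ℝ × ℝ => w p.1 * ((F p.2 : ℂ) * h (p.1 + p.2 + Λ)))
      ((volume : Measure ℝ).prod (volume : Measure ℝ)) := by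
    refine Measurable.aestronglyMeasurable ?_
    refine Measurable.mul (hw.measurable.comp measurable_fst) (Measurable.mul ?_ ?_)
    · exact Complex.measurable_ofReal.comp (hm.comp measurable_snd)
    · exact hc.measurable.comp ((measurable_fst.add measurable_snd).add_const Λ)
  rw [integrable_prod_iff' hmeas]
  constructor
  · refine Filter.Eventually.of_forall fun t => ?_
    rcases lt_or_ge t 0 with ht | ht
    · simp [h0 t ht]
    · have := (hi t ht).const_mul (F t : ℂ)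
      refine this.congr (Filter.Eventually.of_forall fun u => ?_)
      simp only
      ring
  · refine hFg.mono' ?_ (Filter.Eventually.of_forall fun t => ?_)
    · have := (hmeas.prod_swap).norm.integral_prod_right'
      simpa using this
    · rcases lt_or_ge t 0 with ht | ht
      · simp [h0 t ht]
      · have e1 : ∀ u : ℝ, ‖w u * ((F t : ℂ) * h (u + t + Λ))‖ = |F t| * ‖w u * h (u + t + Λ)‖ := by
          intro u
          rw [norm_mul, norm_mul, norm_mul, Complex.norm_real, Real.norm_eq_abs]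
          ring
        simp only [e1]
        rw [integral_const_mul, Real.norm_of_nonneg
          (mul_nonneg (abs_nonneg _) (integral_nonneg fun u => norm_nonneg _))]
        exact mul_le_mul_of_nonneg_left (hg t ht) (abs_nonneg _)

private theorem shift_eq (h : ℝ → ℂ) (z : ℂ) (s u : ℝ) :
    Complex.exp (-z * u) * h (u + s) = Complex.exp (z * s) * (Complex.exp (-z * ((u + s : ℝ) : ℂ)) * h (u + s)) := by
  rw [← mul_assoc, ← Complex.exp_add]
  congr 2
  push_cast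
  ring

private theorem exp_prod_int {F : ℝ → ℝ} (hm : Measurable F) (h0 : ∀ t < 0, F t = 0)
    (hFi : ∀ x : ℝ, 0 < x → Integrable (fun t : ℝ => Real.exp (-(x * t)) * F t)) {h : ℝ → ℂ} (hc : Continuous h)
    {c : ℝ} (h1 : ∀ y, ‖h y‖ ≤ c * Real.exp (-(|y| / 4))) {Λ : ℝ} {z : ℂ} (hz1 : -(1 / 4) < z.re) (hz2 : z.re < 0) :
    Integrable (fun p : ℝ × ℝ => Complex.exp (-z * p.1) * ((F p.2 : ℂ) * h (p.1 + p.2 + Λ))) (volume.prod volume) := by
  have hz : |z.re| < 1 / 4 := by rw [abs_lt]; constructor <;> linarith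
  have hi0 := wt_int hc h1 hz
  have hi : ∀ s : ℝ, Integrable (fun u : ℝ => Complex.exp (-z * u) * h (u + s)) := by
    intro s
    have h2 := (hi0.comp_add_right s).const_mul (Complex.exp (z * s))
    refine h2.congr (Filter.Eventually.of_forall fun u => ?_)
    simp only
    rw [shift_eq h z s u]
  have hI : ∀ s : ℝ, ∫ u : ℝ, ‖Complex.exp (-z * u) * h (u + s)‖ =
      Real.exp (z.re * s) * ∫ y : ℝ, ‖Complex.exp (-z * y) * h y‖ := by
    intro s
    have e1 : ∀ u : ℝ, ‖Complex.exp (-z * u) * h (u + s)‖ =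
        Real.exp (z.re * s) * ‖Complex.exp (-z * ((u + s : ℝ) : ℂ)) * h (u + s)‖ := by
      intro u
      rw [shift_eq h z s u, norm_mul, Complex.norm_exp]
      congr 2
      simp
    simp only [e1]
    rw [integral_const_mul]
    congr 1
    exact integral_add_right_eq_self (fun y : ℝ => ‖Complex.exp (-z * (y : ℂ)) * h y‖) s
  refine prod_int hm h0 hc Λ (w := fun u => Complex.exp (-z * u))
    (g := fun t => Real.exp (z.re * (t + Λ)) * ∫ y : ℝ, ‖Complex.exp (-z * y) * h y‖) (by fun_prop) ?_ ?_ ?_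
  · intro t _
    have := hi (t + Λ)
    simpa only [add_assoc] using this
  · intro t _
    have := hI (t + Λ)
    simp only [← add_assoc] at this
    exact this.le
  · have h2 := (hFi (-z.re) (by linarith)).norm.const_mul
      (Real.exp (z.re * Λ) * ∫ y : ℝ, ‖Complex.exp (-z * y) * h y‖)
    refine h2.congr (Filter.Eventually.of_forall fun t => ?_)
    simp only
    rw [norm_mul, Real.norm_of_nonneg (Real.exp_nonneg _), Real.norm_eq_abs]
    have e2 : Real.exp (z.re * (t + Λ)) = Real.exp (z.re * Λ) * Real.exp (-(-z.re * t)) := by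
      rw [← Real.exp_add]; congr 1; ring
    rw [e2]
    ring

private theorem peetre (x y : ℝ) : (1 + (y - x) ^ 2)⁻¹ ≤ 2 * (1 + x ^ 2)⁻¹ * (1 + y ^ 2) := by
  have h1 : 0 < 1 + (y - x) ^ 2 := by positivity
  have h2 : 0 < 1 + x ^ 2 := by positivity
  rw [inv_eq_one_div, inv_eq_one_div, div_le_iff₀ h1]
  have h3 : 2 * (1 / (1 + x ^ 2)) * (1 + y ^ 2) * (1 + (y - x) ^ 2) =
      2 * ((1 + y ^ 2) * (1 + (y - x) ^ 2)) / (1 + x ^ 2) := by ring
  rw [h3, le_div_iff₀ h2]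
  nlinarith [sq_nonneg (y * (y - x) - 1), sq_nonneg (2 * y - x), sq_nonneg (y * (y - x)), sq_nonneg (y + (y - x)), sq_nonneg (y - (y - x))]

private theorem wt_prod_int {F : ℝ → ℝ} (hm : Measurable F) (h0 : ∀ t < 0, F t = 0)
    (hFw : Integrable (fun t : ℝ => F t * (1 + t ^ 2)⁻¹)) {h : ℝ → ℂ} (hc : Continuous h)
    {c : ℝ} (h1 : ∀ y, ‖h y‖ ≤ c * Real.exp (-(|y| / 4))) {Λ : ℝ} (hΛ : 0 ≤ Λ) :
    Integrable (fun p : ℝ × ℝ => (((1 + p.1 ^ 2)⁻¹ : ℝ) : ℂ) * ((F p.2 : ℂ) * h (p.1 + p.2 + Λ)))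
      (volume.prod volume) := by
  have hi0 := sq_int hc h1
  have hwc : Continuous (fun u : ℝ => (((1 + u ^ 2)⁻¹ : ℝ) : ℂ)) := by
    refine Complex.continuous_ofReal.comp (Continuous.inv₀ (by fun_prop) fun u => ?_)
    positivity
  have hb : ∀ t : ℝ, 0 ≤ t → ∀ u : ℝ, ‖(((1 + u ^ 2)⁻¹ : ℝ) : ℂ) * h (u + t + Λ)‖ ≤
      2 * (1 + t ^ 2)⁻¹ * ((1 + (u + (t + Λ)) ^ 2) * ‖h (u + (t + Λ))‖) := by
    intro t ht u
    rw [norm_mul, Complex.norm_real, Real.norm_of_nonneg (by positivity), add_assoc]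
    have e1 := peetre (t + Λ) (u + (t + Λ))
    have e2 : u + (t + Λ) - (t + Λ) = u := by ring
    rw [e2] at e1
    have e3 : (1 + (t + Λ) ^ 2)⁻¹ ≤ (1 + t ^ 2)⁻¹ := by
      apply inv_anti₀ (by positivity)
      nlinarith
    calc (1 + u ^ 2)⁻¹ * ‖h (u + (t + Λ))‖ ≤
          (2 * (1 + (t + Λ) ^ 2)⁻¹ * (1 + (u + (t + Λ)) ^ 2)) * ‖h (u + (t + Λ))‖ :=
          mul_le_mul_of_nonneg_right e1 (norm_nonneg _)
      _ ≤ (2 * (1 + t ^ 2)⁻¹ * (1 + (u + (t + Λ)) ^ 2)) * ‖h (u + (t + Λ))‖ := by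
          apply mul_le_mul_of_nonneg_right _ (norm_nonneg _)
          apply mul_le_mul_of_nonneg_right _ (by positivity)
          linarith
      _ = _ := by ring
  have hbi : ∀ t : ℝ, Integrable (fun u : ℝ => 2 * (1 + t ^ 2)⁻¹ * ((1 + (u + (t + Λ)) ^ 2) * ‖h (u + (t + Λ))‖)) :=
    fun t => (hi0.comp_add_right (t + Λ)).const_mul _
  have hi : ∀ t, 0 ≤ t → Integrable (fun u : ℝ => (((1 + u ^ 2)⁻¹ : ℝ) : ℂ) * h (u + t + Λ)) := by
    intro t ht
    refine (hbi t).mono' ?_ (Filter.Eventually.of_forall (hb t ht))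
    exact (hwc.mul (hc.comp (by fun_prop))).aestronglyMeasurable
  refine prod_int hm h0 hc Λ (g := fun t => 2 * (1 + t ^ 2)⁻¹ * ∫ y : ℝ, (1 + y ^ 2) * ‖h y‖) hwc hi ?_ ?_
  · intro t ht
    calc ∫ u : ℝ, ‖(((1 + u ^ 2)⁻¹ : ℝ) : ℂ) * h (u + t + Λ)‖ ≤
        ∫ u : ℝ, 2 * (1 + t ^ 2)⁻¹ * ((1 + (u + (t + Λ)) ^ 2) * ‖h (u + (t + Λ))‖) :=
          integral_mono (hi t ht).norm (hbi t) (hb t ht)
      _ = 2 * (1 + t ^ 2)⁻¹ * ∫ y : ℝ, (1 + y ^ 2) * ‖h y‖ := by
          rw [integral_const_mul]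
          congr 1
          exact integral_add_right_eq_self (fun y : ℝ => (1 + y ^ 2) * ‖h y‖) (t + Λ)
  · have h2 := hFw.norm.const_mul (2 * ∫ y : ℝ, (1 + y ^ 2) * ‖h y‖)
    refine h2.congr (Filter.Eventually.of_forall fun t => ?_)
    simp only
    rw [norm_mul, Real.norm_eq_abs, Real.norm_of_nonneg (by positivity)]
    ring

private theorem F_int {F : ℝ → ℝ} (h0 : ∀ t < 0, F t = 0)
    (hFi : ∀ x : ℝ, 0 < x → Integrable (fun t : ℝ => Real.exp (-(x * t)) * F t)) (hm : Measurable F)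
    {k : ℝ → ℂ} (hk : Continuous k) {b A : ℝ} (hb : 0 < b) (hkb : ∀ t, 0 ≤ t → ‖k t‖ ≤ A * Real.exp (-(b * t))) :
    Integrable (fun t : ℝ => (F t : ℂ) * k t) := by
  refine ((hFi b hb).norm.const_mul A).mono' ?_ (Filter.Eventually.of_forall fun t => ?_)
  · exact ((Complex.measurable_ofReal.comp hm).mul hk.measurable).aestronglyMeasurable
  · rcases lt_or_ge t 0 with ht | ht
    · simp [h0 t ht]
    · rw [norm_mul, Complex.norm_real, norm_mul, Real.norm_of_nonneg (Real.exp_nonneg _)]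
      calc ‖F t‖ * ‖k t‖ ≤ ‖F t‖ * (A * Real.exp (-(b * t))) := mul_le_mul_of_nonneg_left (hkb t ht) (norm_nonneg _)
        _ = A * (Real.exp (-(b * t)) * ‖F t‖) := by ring

private theorem h_shift_le {h : ℝ → ℂ} {c : ℝ} (h1 : ∀ y, ‖h y‖ ≤ c * Real.exp (-(|y| / 4))) (Λ u U : ℝ)
    (hU : |u + Λ| ≤ U) (t : ℝ) (ht : 0 ≤ t) :
    ‖h (u + t + Λ)‖ ≤ (c * Real.exp (U / 4)) * Real.exp (-(1 / 4 * t)) := by
  refine (h1 _).trans ?_
  have hc0 := c_nonneg h1
  rw [mul_assoc, ← Real.exp_add]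
  apply mul_le_mul_of_nonneg_left _ hc0
  apply Real.exp_le_exp.mpr
  have e1 : t ≤ |u + t + Λ| + |u + Λ| := by
    have := abs_sub_abs_le_abs_sub (u + t + Λ) (u + Λ)
    have e2 : |t| ≤ |u + t + Λ| + |u + Λ| := by
      have e3 : t = (u + t + Λ) - (u + Λ) := by ring
      calc |t| = |(u + t + Λ) - (u + Λ)| := by rw [← e3]
        _ ≤ _ := abs_sub _ _
    rwa [abs_of_nonneg ht] at e2
  linarith

private theorem DD_cont {F : ℝ → ℝ} (hm : Measurable F) (h0 : ∀ t < 0, F t = 0)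
    (hFi : ∀ x : ℝ, 0 < x → Integrable (fun t : ℝ => Real.exp (-(x * t)) * F t)) {h : ℝ → ℂ} (hc : Continuous h)
    {c : ℝ} (h1 : ∀ y, ‖h y‖ ≤ c * Real.exp (-(|y| / 4))) {Λ : ℝ} : Continuous (DD h Λ F) := by
  rw [continuous_iff_continuousAt]
  intro u₀
  unfold DD
  refine continuousAt_of_dominated (bound := fun t => (c * Real.exp ((|u₀ + Λ| + 1) / 4)) *
    ‖Real.exp (-(1 / 4 * t)) * F t‖) ?_ ?_ ?_ ?_
  · refine Filter.Eventually.of_forall fun u => ?_
    exact ((Complex.measurable_ofReal.comp hm).mul (hc.measurable.comp (by fun_prop))).aestronglyMeasurable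
  · filter_upwards [Metric.ball_mem_nhds u₀ one_pos] with u hu
    refine Filter.Eventually.of_forall fun t => ?_
    rcases lt_or_ge t 0 with ht | ht
    · simp [h0 t ht]
    · have hU : |u + Λ| ≤ |u₀ + Λ| + 1 := by
        rw [Metric.mem_ball, Real.dist_eq] at hu
        have : u + Λ = (u₀ + Λ) + (u - u₀) := by ring
        rw [this]
        exact (abs_add_le _ _).trans (by linarith)
      rw [norm_mul, Complex.norm_real, norm_mul, Real.norm_of_nonneg (Real.exp_nonneg _)]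
      calc ‖F t‖ * ‖h (u + t + Λ)‖ ≤ ‖F t‖ * ((c * Real.exp ((|u₀ + Λ| + 1) / 4)) * Real.exp (-(1 / 4 * t))) :=
            mul_le_mul_of_nonneg_left (h_shift_le h1 Λ u _ hU t ht) (norm_nonneg _)
        _ = _ := by ring
  · exact (hFi (1 / 4) (by norm_num)).norm.const_mul _
  · refine Filter.Eventually.of_forall fun t => ?_
    exact (continuous_const.mul (hc.comp (by fun_prop))).continuousAt

private theorem texp_le (t : ℝ) (ht : 0 ≤ t) : t * Real.exp (-(t / 2)) ≤ 4 * Real.exp (-(1 / 4 * t)) := by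
  have h1 : t / 4 + 1 ≤ Real.exp (t / 4) := Real.add_one_le_exp _
  have h2 : t ≤ 4 * Real.exp (t / 4) := by linarith
  calc t * Real.exp (-(t / 2)) ≤ (4 * Real.exp (t / 4)) * Real.exp (-(t / 2)) :=
        mul_le_mul_of_nonneg_right h2 (Real.exp_nonneg _)
    _ = 4 * (Real.exp (t / 4) * Real.exp (-(t / 2))) := by ring
    _ = 4 * Real.exp (-(1 / 4 * t)) := by rw [← Real.exp_add]; congr 2; ring

private theorem DD_bound {F : ℝ → ℝ} (hm : Measurable F) (h0 : ∀ t < 0, F t = 0) (hF : ∀ t, |F t| ≤ Real.exp (t / 2))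
    (hFi : ∀ x : ℝ, 0 < x → Integrable (fun t : ℝ => Real.exp (-(x * t)) * F t)) {h : ℝ → ℂ} (hc : Continuous h)
    {A₀ A₁ : ℂ} {c : ℝ} (h1 : ∀ y, ‖h y‖ ≤ c * Real.exp (-(|y| / 4)))
    (h2 : ∀ y : ℝ, 0 ≤ y → ‖h y - Complex.exp (-(y / 2)) * (A₀ * y + A₁)‖ ≤ c * Real.exp (-y)) {Λ : ℝ} (hΛ : 0 ≤ Λ)
    (u : ℝ) (hu : 0 ≤ u) : ‖DD h Λ F u‖ ≤ Real.exp (-((u + Λ) / 2)) *
        ((‖A₀‖ * (u + Λ) + ‖A₁‖) * |∫ t : ℝ, Real.exp (-(t / 2)) * F t| +
          ‖A₀‖ * |∫ t : ℝ, Real.exp (-(t / 2)) * (t * F t)|) + 2 * c * Real.exp (-(u + Λ)) := by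
  have hc0 := c_nonneg h1
  -- the two real integrals
  have i1 : Integrable (fun t : ℝ => (F t : ℂ) * ((Real.exp (-(t / 2)) : ℝ) : ℂ)) := by
    refine F_int h0 hFi hm (k := fun t => ((Real.exp (-(t / 2)) : ℝ) : ℂ)) (by fun_prop) (b := 1 / 2) (A := 1)
      (by norm_num) fun t _ => ?_
    rw [Complex.norm_real, Real.norm_of_nonneg (Real.exp_nonneg _), one_mul]
    apply le_of_eq; congr 1; ring
  have i2 : Integrable (fun t : ℝ => (F t : ℂ) * ((t * Real.exp (-(t / 2)) : ℝ) : ℂ)) := by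
    refine F_int h0 hFi hm (k := fun t => ((t * Real.exp (-(t / 2)) : ℝ) : ℂ)) (by fun_prop) (b := 1 / 4) (A := 4)
      (by norm_num) fun t ht => ?_
    rw [Complex.norm_real, Real.norm_of_nonneg (by positivity)]
    exact texp_le t ht
  have i3 : Integrable (fun t : ℝ => (F t : ℂ) * h (u + t + Λ)) := by
    refine F_int h0 hFi hm (k := fun t => h (u + t + Λ)) (hc.comp (by fun_prop)) (b := 1 / 4)
      (A := c * Real.exp (|u + Λ| / 4)) (by norm_num) fun t ht => ?_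
    exact h_shift_le h1 Λ u _ le_rfl t ht
  set M : ℝ → ℂ := fun t => (F t : ℂ) * (Complex.exp (-(((u + t + Λ : ℝ) : ℂ) / 2)) * (A₀ * ((u + t + Λ : ℝ) : ℂ) + A₁)) with hM
  have eM : M = fun t => ((Real.exp (-((u + Λ) / 2)) : ℝ) : ℂ) * (A₀ * ((u + Λ : ℝ) : ℂ) + A₁) *
        ((F t : ℂ) * ((Real.exp (-(t / 2)) : ℝ) : ℂ)) +
      ((Real.exp (-((u + Λ) / 2)) : ℝ) : ℂ) * A₀ * ((F t : ℂ) * ((t * Real.exp (-(t / 2)) : ℝ) : ℂ)) := by
    funext t
    have e1 : Complex.exp (-(((u + t + Λ : ℝ) : ℂ) / 2)) =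
        ((Real.exp (-((u + Λ) / 2)) : ℝ) : ℂ) * ((Real.exp (-(t / 2)) : ℝ) : ℂ) := by
      rw [← Complex.ofReal_mul, ← Real.exp_add, Complex.ofReal_exp]
      congr 1
      push_cast
      ring
    rw [hM]
    simp only
    rw [e1]
    push_cast
    ring
  have iM : Integrable M := by
    rw [eM]
    exact (i1.const_mul _).add (i2.const_mul _)
  have vM : ∫ t, M t = ((Real.exp (-((u + Λ) / 2)) : ℝ) : ℂ) * (A₀ * ((u + Λ : ℝ) : ℂ) + A₁) *
        ((∫ t : ℝ, Real.exp (-(t / 2)) * F t : ℝ) : ℂ) +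
      ((Real.exp (-((u + Λ) / 2)) : ℝ) : ℂ) * A₀ * ((∫ t : ℝ, Real.exp (-(t / 2)) * (t * F t) : ℝ) : ℂ) := by
    rw [eM, integral_add (i1.const_mul _) (i2.const_mul _), integral_const_mul, integral_const_mul]
    congr 2
    · rw [← integral_complex_ofReal]
      congr 1
      funext t
      push_cast
      ring
    · rw [← integral_complex_ofReal]
      congr 1
      funext t
      push_cast
      ring
  have nM : ‖∫ t, M t‖ ≤ Real.exp (-((u + Λ) / 2)) *
        ((‖A₀‖ * (u + Λ) + ‖A₁‖) * |∫ t : ℝ, Real.exp (-(t / 2)) * F t| +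
          ‖A₀‖ * |∫ t : ℝ, Real.exp (-(t / 2)) * (t * F t)|) := by
    rw [vM]
    refine (norm_add_le _ _).trans ?_
    rw [norm_mul, norm_mul, norm_mul, norm_mul, Complex.norm_real, Complex.norm_real, Complex.norm_real,
      Real.norm_of_nonneg (Real.exp_nonneg _), Real.norm_eq_abs, Real.norm_eq_abs]
    have e2 : ‖A₀ * ((u + Λ : ℝ) : ℂ) + A₁‖ ≤ ‖A₀‖ * (u + Λ) + ‖A₁‖ := by
      refine (norm_add_le _ _).trans ?_
      rw [norm_mul, Complex.norm_real, Real.norm_of_nonneg (by linarith)]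
    have e3 : Real.exp (-((u + Λ) / 2)) * ‖A₀ * ((u + Λ : ℝ) : ℂ) + A₁‖ * |∫ t : ℝ, Real.exp (-(t / 2)) * F t| ≤
        Real.exp (-((u + Λ) / 2)) * (‖A₀‖ * (u + Λ) + ‖A₁‖) * |∫ t : ℝ, Real.exp (-(t / 2)) * F t| :=
      mul_le_mul_of_nonneg_right (mul_le_mul_of_nonneg_left e2 (Real.exp_nonneg _)) (abs_nonneg _)
    calc _ ≤ Real.exp (-((u + Λ) / 2)) * (‖A₀‖ * (u + Λ) + ‖A₁‖) * |∫ t : ℝ, Real.exp (-(t / 2)) * F t| +
          Real.exp (-((u + Λ) / 2)) * ‖A₀‖ * |∫ t : ℝ, Real.exp (-(t / 2)) * (t * F t)| := add_le_add e3 le_rfl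
      _ = _ := by ring
  -- the remainder
  have ie : IntegrableOn (fun t : ℝ => c * Real.exp (-(u + Λ)) * Real.exp (-(1 / 2) * t)) (Set.Ioi 0) :=
    (exp_neg_integrableOn_Ioi 0 (by norm_num : (0 : ℝ) < 1 / 2)).const_mul _
  have iI : Integrable (Set.indicator (Set.Ici 0) (fun t : ℝ => c * Real.exp (-(u + Λ)) * Real.exp (-(1 / 2) * t))) := by
    rw [integrable_indicator_iff measurableSet_Ici, integrableOn_Ici_iff_integrableOn_Ioi]
    exact ie
  have hd : DD h Λ F u = (∫ t, M t) + ∫ t, ((F t : ℂ) * h (u + t + Λ) - M t) := by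
    rw [integral_sub i3 iM]
    unfold DD
    ring
  have nR : ‖∫ t, ((F t : ℂ) * h (u + t + Λ) - M t)‖ ≤ 2 * c * Real.exp (-(u + Λ)) := by
    calc ‖∫ t, ((F t : ℂ) * h (u + t + Λ) - M t)‖ ≤
        ∫ t, Set.indicator (Set.Ici 0) (fun t : ℝ => c * Real.exp (-(u + Λ)) * Real.exp (-(1 / 2) * t)) t := by
          refine norm_integral_le_of_norm_le iI (Filter.Eventually.of_forall fun t => ?_)
          rcases lt_or_ge t 0 with ht | ht
          · rw [Set.indicator_of_notMem (by simpa using ht)]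
            simp [hM, h0 t ht]
          · rw [Set.indicator_of_mem (by simpa using ht)]
            have e4 : (F t : ℂ) * h (u + t + Λ) - M t = (F t : ℂ) *
                (h (u + t + Λ) - Complex.exp (-(((u + t + Λ : ℝ) : ℂ) / 2)) * (A₀ * ((u + t + Λ : ℝ) : ℂ) + A₁)) := by
              rw [hM]; ring
            rw [e4, norm_mul, Complex.norm_real, Real.norm_eq_abs]
            have e5 := h2 (u + t + Λ) (by linarith)
            calc |F t| * ‖h (u + t + Λ) - Complex.exp (-(((u + t + Λ : ℝ) : ℂ) / 2)) *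
                  (A₀ * ((u + t + Λ : ℝ) : ℂ) + A₁)‖ ≤ Real.exp (t / 2) * (c * Real.exp (-(u + t + Λ))) :=
                  mul_le_mul (hF t) e5 (norm_nonneg _) (Real.exp_nonneg _)
              _ = c * (Real.exp (t / 2) * Real.exp (-(u + t + Λ))) := by ring
              _ = c * Real.exp (-(u + Λ)) * Real.exp (-(1 / 2) * t) := by
                  rw [← Real.exp_add, mul_assoc, ← Real.exp_add]; congr 2; ring
      _ = 2 * c * Real.exp (-(u + Λ)) := by
          rw [integral_indicator measurableSet_Ici, integral_Ici_eq_integral_Ioi, integral_const_mul]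
          have e6 := integral_exp_mul_Ioi (a := -(1 / 2 : ℝ)) (by norm_num) 0
          rw [e6]
          simp
          ring
  rw [hd]
  exact (norm_add_le _ _).trans (add_le_add nM nR)

/-- QT8 -/
theorem D_props {F : ℝ → ℝ} (hm : Measurable F) (h0 : ∀ t < 0, F t = 0) (hF : ∀ t, |F t| ≤ Real.exp (t / 2))
    (hFi : ∀ x : ℝ, 0 < x → Integrable (fun t : ℝ => Real.exp (-(x * t)) * F t))
    (hFw : Integrable (fun t : ℝ => F t * (1 + t ^ 2)⁻¹)) {h : ℝ → ℂ} (hc : Continuous h) {A₀ A₁ : ℂ} {c : ℝ}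
    (h1 : ∀ y, ‖h y‖ ≤ c * Real.exp (-(|y| / 4)))
    (h2 : ∀ y : ℝ, 0 ≤ y → ‖h y - Complex.exp (-(y / 2)) * (A₀ * y + A₁)‖ ≤ c * Real.exp (-y)) {Λ : ℝ} (hΛ : 0 ≤ Λ) :
    Continuous (DD h Λ F) ∧ Integrable (fun u : ℝ => DD h Λ F u * (((1 + u ^ 2)⁻¹ : ℝ) : ℂ)) ∧
      (∀ δ : ℝ, 0 < δ → δ < 1 / 4 → Integrable (fun u : ℝ => Complex.exp (δ * u) * DD h Λ F u)) ∧
      (∀ z : ℂ, -(1 / 4) < z.re → z.re < 0 → ∫ u : ℝ, Complex.exp (-z * u) * DD h Λ F u =
        Complex.exp (z * Λ) * (∫ t : ℝ, Complex.exp (z * t) * (F t : ℂ)) * ∫ y : ℝ, Complex.exp (-z * y) * h y) ∧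
      ∀ u : ℝ, 0 ≤ u → ‖DD h Λ F u‖ ≤ Real.exp (-((u + Λ) / 2)) *
        ((‖A₀‖ * (u + Λ) + ‖A₁‖) * |∫ t : ℝ, Real.exp (-(t / 2)) * F t| +
          ‖A₀‖ * |∫ t : ℝ, Real.exp (-(t / 2)) * (t * F t)|) + 2 * c * Real.exp (-(u + Λ)) := by
  refine ⟨DD_cont hm h0 hFi hc h1, ?_, ?_, ?_, fun u hu => DD_bound hm h0 hF hFi hc h1 h2 hΛ u hu⟩
  · have h3 := (wt_prod_int hm h0 hFw hc h1 hΛ).integral_prod_left
    refine h3.congr (Filter.Eventually.of_forall fun u => ?_)
    simp only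
    rw [integral_const_mul, mul_comm]
    rfl
  · intro δ hδ hδ'
    have h3 := (exp_prod_int hm h0 hFi hc h1 (Λ := Λ) (z := ((-δ : ℝ) : ℂ)) (by simp; linarith)
      (by simp; linarith)).integral_prod_left
    refine h3.congr (Filter.Eventually.of_forall fun u => ?_)
    simp only
    rw [integral_const_mul]
    have e1 : Complex.exp (-((-δ : ℝ) : ℂ) * (u : ℂ)) = Complex.exp ((δ : ℂ) * u) := by
      congr 1; push_cast; ring
    rw [e1]
    rfl
  · intro z hz1 hz2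
    have h3 := exp_prod_int hm h0 hFi hc h1 (Λ := Λ) hz1 hz2
    have e1 : ∫ u : ℝ, Complex.exp (-z * u) * DD h Λ F u =
        ∫ u : ℝ, ∫ t : ℝ, Complex.exp (-z * u) * ((F t : ℂ) * h (u + t + Λ)) := by
      congr 1
      funext u
      rw [integral_const_mul]
      rfl
    rw [e1, integral_integral_swap h3]
    have e2 : ∀ t : ℝ, ∫ u : ℝ, Complex.exp (-z * u) * ((F t : ℂ) * h (u + t + Λ)) =
        Complex.exp (z * Λ) * (Complex.exp (z * t) * (F t : ℂ)) * ∫ y : ℝ, Complex.exp (-z * y) * h y := by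
      intro t
      have e3 : ∀ u : ℝ, Complex.exp (-z * u) * ((F t : ℂ) * h (u + t + Λ)) =
          (Complex.exp (z * Λ) * (Complex.exp (z * t) * (F t : ℂ))) *
            (Complex.exp (-z * ((u + (t + Λ) : ℝ) : ℂ)) * h (u + (t + Λ))) := by
        intro u
        have e4 := shift_eq h z (t + Λ) u
        have e5 : Complex.exp (z * ((t + Λ : ℝ) : ℂ)) = Complex.exp (z * Λ) * Complex.exp (z * t) := by
          rw [← Complex.exp_add]; congr 1; push_cast; ring
        rw [e5] at e4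
        have e6 : Complex.exp (-z * u) * ((F t : ℂ) * h (u + t + Λ)) =
            (F t : ℂ) * (Complex.exp (-z * u) * h (u + (t + Λ))) := by
          rw [← add_assoc]; ring
        rw [e6, e4]
        ring
      simp only [e3]
      rw [integral_const_mul]
      congr 1
      exact integral_add_right_eq_self (fun y : ℝ => Complex.exp (-z * (y : ℂ)) * h y) (t + Λ)
    simp only [e2]
    rw [integral_mul_const, integral_const_mul]

end Pool.Agent.QT
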