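import Pool.Agent.Helper96.QT.DefL
import Pool.Agent.Helper96.AG.F4
import Pool.Agent.Helper96.AF.F5
import Pool.Agent.Helper66.LW.LG
import Pool.Agent.Helper66.LW.RES

/-!
# QTL12: the random model of the Liouville function, finite form

Product measure of signs on the primes, the theorem of `Results/MP_a499ba_nt/RandomLiouville.lean`
(its proof is repeated here) with `δ = 1/8`; the event that both signs reach `C √n` for some `n ≤ X`
depends on the signs of the primes up to `X` only.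
-/

namespace Pool.Agent.QT

open Real Filter Topology MeasureTheory Set DirichletCharacter ProbabilityTheory

/-- The completely multiplicative function `∏_{p ∣ n} s(p)^{v_p(n)}` attached to the signs `s(p)` of the primes. -/
private noncomputable def completely22 (s : Nat.Primes → ℝ) (n : ℕ) : ℝ :=
  ∏ p ∈ n.primeFactors.attach, s ⟨p, Nat.prime_of_mem_primeFactors p.2⟩ ^ n.factorization p

/-- The summatory function `∑_{1 ≤ n ≤ x} g(n)`. -/
private noncomputable def L22 (g : ℕ → ℝ) (x : ℝ) : ℝ := ∑ n ∈ Finset.Icc 1 ⌊x⌋₊, g n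

private theorem result22 (δ : ℝ) (hδ : 0 < δ) {Ω : Type*} [MeasurableSpace Ω] (P : Measure Ω) [IsProbabilityMeasure P]
    (ε : Nat.Primes → Ω → ℝ) (hm : ∀ p, Measurable (ε p)) (hi : iIndepFun ε P)
    (h1 : ∀ p, P {ω | ε p ω = 1} = 1 / 2) (h2 : ∀ p, P {ω | ε p ω = -1} = 1 / 2) :
    ∀ᵐ ω ∂P,
      (∃ C : ℝ, ∀ x : ℝ, 3 ≤ x →
        |L22 (completely22 fun p => ε p ω) x| ≤ C * Real.sqrt x * Real.log (Real.log x) ^ (1 / 4 + δ)) ∧
      (∃ X0 : ℝ, ∀ X : ℝ, X0 ≤ X →
        (∃ x : ℝ, X ≤ x ∧ x ≤ X ^ 4 ∧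
          Real.sqrt x * Real.log (Real.log x) ^ (1 / 4 - δ) ≤ L22 (completely22 fun p => ε p ω) x) ∧
        (∃ y : ℝ, X ≤ y ∧ y ≤ X ^ 4 ∧
          L22 (completely22 fun p => ε p ω) y ≤ -(Real.sqrt y * Real.log (Real.log y) ^ (1 / 4 - δ)))) := by
  have hd : 0 < min δ (1 / 16) := lt_min hδ (by norm_num)
  filter_upwards [Pool.Agent.Helper96.AG.almost_sureG δ hδ P (Pool.Agent.Helper96.AF.ext ε)
    (Pool.Agent.Helper96.AF.unif_primes P ε hm hi h2)
    (Pool.Agent.Helper96.AF.ae_pm_primes P ε hm h2 h1),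
    Pool.Agent.Helper66.LW.low_g' (min δ (1 / 16)) hd (min_le_right _ _) P (Pool.Agent.Helper96.AF.ext ε)
    (Pool.Agent.Helper96.AF.unif_primes P ε hm hi h2),
    Pool.Agent.Helper96.AF.ae_pm_primes P ε hm h2 h1] with ω hω hlow hpm
  have e2 : ∀ n : ℕ, completely22 (fun p => ε p ω) n =
      Pool.Agent.Helper96.AG.gs (Pool.Agent.Helper96.AF.ext ε) ω n := by
    intro n
    unfold completely22 Pool.Agent.Helper96.AG.gs
    rw [← Finset.prod_attach n.primeFactors
      (fun p => Pool.Agent.Helper96.AF.ext ε p ω ^ n.factorization p)]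
    refine Finset.prod_congr rfl fun p _ => ?_
    unfold Pool.Agent.Helper96.AF.ext
    rw [dif_pos (Nat.prime_of_mem_primeFactors p.2)]
  have e1 : ∀ x : ℝ, L22 (completely22 fun p => ε p ω) x =
      ∑ n ∈ Finset.Icc 1 ⌊x⌋₊, Pool.Agent.Helper96.AG.gs (Pool.Agent.Helper96.AF.ext ε) ω n := by
    intro x
    unfold L22
    exact Finset.sum_congr rfl fun n _ => e2 n
  constructor
  · obtain ⟨C, hC⟩ := hω
    refine ⟨C, fun x hx => ?_⟩
    rw [e1]
    exact hC x hx
  · refine Pool.Agent.Helper66.LW.scale_mono (min δ (1 / 16)) δ (min_le_left _ _) _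
      (Pool.Agent.Helper66.LW.scale_conv (min δ (1 / 16)) hd (min_le_right _ _) _
        (fun r n => Pool.Agent.Helper96.AG.GM (Pool.Agent.Helper96.AF.TT (Pool.Agent.Helper96.AF.ext ε) ω
          (Pool.Agent.Helper96.AF.Y (r + 1))) n) ?_ hlow)
    intro r n hn
    rw [e1, Nat.floor_natCast]
    unfold Pool.Agent.Helper96.AG.GM
    refine Finset.sum_congr rfl fun m hm' => ?_
    exact Pool.Agent.Helper96.AG.gs_eq _ _ hpm _ _ ((Finset.mem_Icc.1 hm').2.trans hn)

/-- the uniform measure on `Bool` -/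
private noncomputable def be22 : Measure Bool := (2⁻¹ : ENNReal) • Measure.count

private theorem be_one22 (b : Bool) : be22 {b} = 1 / 2 := by
  simp [be22]

private instance be_prob22 : IsProbabilityMeasure be22 := by
  constructor
  rw [be22, Measure.smul_apply, Measure.count_apply_finite' (Set.toFinite _) MeasurableSet.univ]
  simp [ENNReal.inv_mul_cancel]

private noncomputable def PP22 : Measure (Nat.Primes → Bool) :=
  Measure.infinitePi (fun _ : Nat.Primes => be22)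

private instance PP_prob22 : IsProbabilityMeasure PP22 := by
  unfold PP22; infer_instance

/-- the sign of a prime -/
private noncomputable def ep22 (p : Nat.Primes) (ω : Nat.Primes → Bool) : ℝ :=
  if ω p = true then -1 else 1

private theorem ep_meas22 (p : Nat.Primes) : Measurable (ep22 p) := by
  have h : Measurable fun b : Bool => if b = true then (-1 : ℝ) else 1 := measurable_of_countable _
  exact h.comp (measurable_pi_apply p)

private theorem ep_ind22 : iIndepFun ep22 PP22 :=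
  iIndepFun_infinitePi (P := fun _ : Nat.Primes => be22)
    (X := fun _ (b : Bool) => if b = true then (-1 : ℝ) else 1)
    (fun _ => measurable_of_countable _)

private theorem coord22 (p : Nat.Primes) (b : Bool) : PP22 {ω | ω p = b} = 1 / 2 := by
  have h : {ω : Nat.Primes → Bool | ω p = b} = Set.pi (({p} : Finset Nat.Primes) : Set Nat.Primes)
      (fun _ => {b}) := by
    ext ω
    simp
  rw [h, PP22, Measure.infinitePi_pi _ (fun _ _ => MeasurableSet.singleton _),
    Finset.prod_singleton, be_one22]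

private theorem ep_one22 (p : Nat.Primes) : PP22 {ω | ep22 p ω = 1} = 1 / 2 := by
  rw [← coord22 p false]
  congr 1
  ext ω
  simp only [ep22, Set.mem_ofPred_eq]
  cases h : ω p <;> norm_num

private theorem ep_neg22 (p : Nat.Primes) : PP22 {ω | ep22 p ω = -1} = 1 / 2 := by
  rw [← coord22 p true]
  congr 1
  ext ω
  simp only [ep22, Set.mem_ofPred_eq]
  cases h : ω p <;> norm_num

open Classical in
/-- the pattern of `ω` up to `X` -/
private noncomputable def pt22 (X : ℕ) (ω : Nat.Primes → Bool) : Finset ℕ :=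
  (PX X).filter fun p => ∃ h : p.Prime, ω ⟨p, h⟩ = true

private theorem CM_eq22 {X m : ℕ} (hm : m ≤ X) (ω : Nat.Primes → Bool) :
    CM (pt22 X ω) m = completely22 (fun p => ep22 p ω) m := by
  unfold CM completely22
  rw [← Finset.prod_attach m.primeFactors
    (fun p => (if p ∈ pt22 X ω then (-1 : ℝ) else 1) ^ m.factorization p)]
  refine Finset.prod_congr rfl fun p _ => ?_
  have hp := Nat.prime_of_mem_primeFactors p.2
  have hle := (Nat.le_of_mem_primeFactors p.2).trans hm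
  have hiff : (p : ℕ) ∈ pt22 X ω ↔ ω ⟨p, hp⟩ = true := by
    unfold pt22 PX
    simp only [Finset.mem_filter, Finset.mem_Icc]
    exact ⟨fun h => h.2.2, fun h => ⟨⟨⟨hp.one_le, hle⟩, hp⟩, hp, h⟩⟩
  unfold ep22
  congr 1
  exact if_congr hiff rfl rfl

/-- both signs are reached -/
private def Gd22 (C : ℝ) (X : ℕ) (T : Finset ℕ) : Prop :=
  (∃ n ∈ Finset.Icc 1 X, C * Real.sqrt n ≤ ∑ m ∈ Finset.Icc 1 n, CM T m) ∧
    ∃ n ∈ Finset.Icc 1 X, ∑ m ∈ Finset.Icc 1 n, CM T m ≤ -(C * Real.sqrt n)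

private theorem Gd_iff22 (C : ℝ) (X : ℕ) (ω : Nat.Primes → Bool) : Gd22 C X (pt22 X ω) ↔
    ((∃ n ∈ Finset.Icc 1 X, C * Real.sqrt n ≤
        ∑ m ∈ Finset.Icc 1 n, completely22 (fun p => ep22 p ω) m) ∧
      ∃ n ∈ Finset.Icc 1 X, ∑ m ∈ Finset.Icc 1 n, completely22 (fun p => ep22 p ω) m ≤
        -(C * Real.sqrt n)) := by
  have e : ∀ n ∈ Finset.Icc 1 X, ∑ m ∈ Finset.Icc 1 n, CM (pt22 X ω) m =
      ∑ m ∈ Finset.Icc 1 n, completely22 (fun p => ep22 p ω) m := by
    intro n hn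
    refine Finset.sum_congr rfl fun m hm => CM_eq22 ?_ ω
    exact (Finset.mem_Icc.1 hm).2.trans (Finset.mem_Icc.1 hn).2
  unfold Gd22
  constructor
  · rintro ⟨⟨n, hn, h⟩, n', hn', h'⟩
    exact ⟨⟨n, hn, by rwa [← e n hn]⟩, n', hn', by rwa [← e n' hn']⟩
  · rintro ⟨⟨n, hn, h⟩, n', hn', h'⟩
    exact ⟨⟨n, hn, by rwa [e n hn]⟩, n', hn', by rwa [e n' hn']⟩

private theorem Gd_mono22 {C : ℝ} {X X' : ℕ} (hX : X ≤ X') {ω : Nat.Primes → Bool}
    (h : Gd22 C X (pt22 X ω)) : Gd22 C X' (pt22 X' ω) := by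
  rw [Gd_iff22] at h ⊢
  obtain ⟨⟨n, hn, h⟩, n', hn', h'⟩ := h
  exact ⟨⟨n, Finset.Icc_subset_Icc_right hX hn, h⟩, n', Finset.Icc_subset_Icc_right hX hn', h'⟩

private theorem ae_good22 (C : ℝ) : ∀ᵐ ω ∂PP22, ∃ X, Gd22 C X (pt22 X ω) := by
  have key := result22 (1 / 8) (by norm_num) PP22 ep22 ep_meas22 ep_ind22 ep_one22 ep_neg22
  filter_upwards [key] with ω hω
  obtain ⟨-, X0, hX0⟩ := hω
  have ht : Tendsto (fun x : ℝ => Real.log (Real.log x) ^ ((1 : ℝ) / 4 - 1 / 8)) atTop atTop :=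
    (tendsto_rpow_atTop (by norm_num)).comp (Real.tendsto_log_atTop.comp Real.tendsto_log_atTop)
  obtain ⟨x1, hx1⟩ := (eventually_atTop.1 (ht.eventually_ge_atTop (max C 0)))
  obtain ⟨⟨x, hx, hx4, hM⟩, y, hy, hy4, hM'⟩ := hX0 (max (max X0 x1) 1)
    ((le_max_left _ _).trans (le_max_left _ _))
  have hx1' : 1 ≤ x := (le_max_right _ _).trans hx
  have hy1' : 1 ≤ y := (le_max_right _ _).trans hy
  have hxx : x1 ≤ x := ((le_max_right _ _).trans (le_max_left _ _)).trans hx
  have hyy : x1 ≤ y := ((le_max_right _ _).trans (le_max_left _ _)).trans hy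
  refine ⟨⌈(max (max X0 x1) 1) ^ 4⌉₊, ?_⟩
  rw [Gd_iff22]
  have aux : ∀ z : ℝ, 1 ≤ z → x1 ≤ z → C * Real.sqrt (⌊z⌋₊ : ℕ) ≤
      Real.sqrt z * Real.log (Real.log z) ^ ((1 : ℝ) / 4 - 1 / 8) := by
    intro z hz hz1
    have h1 : Real.sqrt (⌊z⌋₊ : ℕ) ≤ Real.sqrt z :=
      Real.sqrt_le_sqrt (Nat.floor_le (by linarith))
    have h2 := hx1 z hz1
    calc C * Real.sqrt (⌊z⌋₊ : ℕ) ≤ max C 0 * Real.sqrt z :=
          mul_le_mul (le_max_left _ _) h1 (Real.sqrt_nonneg _) (le_max_right _ _)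
      _ ≤ Real.log (Real.log z) ^ ((1 : ℝ) / 4 - 1 / 8) * Real.sqrt z :=
          mul_le_mul_of_nonneg_right h2 (Real.sqrt_nonneg _)
      _ = _ := mul_comm _ _
  have mem : ∀ z : ℝ, 1 ≤ z → z ≤ (max (max X0 x1) 1) ^ 4 →
      ⌊z⌋₊ ∈ Finset.Icc 1 ⌈(max (max X0 x1) 1) ^ 4⌉₊ := by
    intro z hz hz4
    rw [Finset.mem_Icc]
    exact ⟨(Nat.one_le_floor_iff _).2 hz, (Nat.floor_le_floor hz4).trans (Nat.floor_le_ceil _)⟩
  refine ⟨⟨⌊x⌋₊, mem x hx1' hx4, (aux x hx1' hxx).trans hM⟩, ⌊y⌋₊, mem y hy1' hy4, ?_⟩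
  have := aux y hy1' hyy
  exact hM'.trans (neg_le_neg this)

private theorem pt_sub22 (X : ℕ) (ω : Nat.Primes → Bool) : pt22 X ω ⊆ PX X :=
  Finset.filter_subset _ _

/-- the primes up to `X` -/
private def sp22 (X : ℕ) : Finset Nat.Primes := (PX X).subtype Nat.Prime

private theorem mem_sp22 {X : ℕ} {p : Nat.Primes} : p ∈ sp22 X ↔ (p : ℕ) ∈ PX X :=
  Finset.mem_subtype (p := Nat.Prime) (s := PX X) (a := p)

private theorem card_sp22 (X : ℕ) : (sp22 X).card = (PX X).card := by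
  refine (Finset.card_subtype Nat.Prime (PX X)).trans ?_
  congr 1
  exact Finset.filter_true_of_mem fun p hp => (Finset.mem_filter.1 hp).2

open Classical in
private theorem pt_fiber22 {X : ℕ} {T : Finset ℕ} (hT : T ⊆ PX X) :
    {ω : Nat.Primes → Bool | pt22 X ω = T} =
      Set.pi (sp22 X : Set Nat.Primes) (fun p => {decide ((p : ℕ) ∈ T)}) := by
  ext ω
  simp only [Set.mem_ofPred_eq, Set.mem_pi, Finset.mem_coe, mem_sp22,
    Set.mem_singleton_iff]
  constructor
  · rintro rfl p hp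
    have hiff : (p : ℕ) ∈ pt22 X ω ↔ ω p = true := by
      unfold pt22
      rw [Finset.mem_filter]
      exact ⟨fun h => by obtain ⟨_, h', h2⟩ := h; exact h2, fun h => ⟨hp, p.2, h⟩⟩
    rcases hb : ω p with _ | _
    · symm
      rw [decide_eq_false_iff_not, hiff, hb]
      simp
    · symm
      rw [decide_eq_true_iff, hiff, hb]
  · intro h
    ext p
    unfold pt22
    rw [Finset.mem_filter]
    constructor
    · rintro ⟨hp, hpr, hω⟩
      have := h ⟨p, hpr⟩ hp
      rw [hω] at this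
      exact of_decide_eq_true this.symm
    · intro hp
      have hpX := hT hp
      have hpr : p.Prime := (Finset.mem_filter.1 hpX).2
      refine ⟨hpX, hpr, ?_⟩
      rw [h ⟨p, hpr⟩ hpX]
      exact decide_eq_true hp

open Classical in
private theorem pt_prob22 {X : ℕ} {T : Finset ℕ} (hT : T ⊆ PX X) :
    MeasurableSet {ω : Nat.Primes → Bool | pt22 X ω = T} ∧
      PP22 {ω : Nat.Primes → Bool | pt22 X ω = T} = (1 / 2) ^ (PX X).card := by
  rw [pt_fiber22 hT]
  refine ⟨MeasurableSet.pi (Finset.countable_toSet _) fun _ _ => MeasurableSet.singleton _, ?_⟩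
  rw [PP22, Measure.infinitePi_pi _ (fun _ _ => MeasurableSet.singleton _)]
  simp only [be_one22, Finset.prod_const]
  rw [card_sp22]

open Classical in
private theorem bad_prob22 (C : ℝ) (X : ℕ) :
    MeasurableSet {ω : Nat.Primes → Bool | ¬Gd22 C X (pt22 X ω)} ∧
      PP22 {ω : Nat.Primes → Bool | ¬Gd22 C X (pt22 X ω)} =
        (((PX X).powerset.filter fun T => ¬Gd22 C X T).card : ENNReal) *
          (1 / 2) ^ (PX X).card := by
  have hU : {ω : Nat.Primes → Bool | ¬Gd22 C X (pt22 X ω)} =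
      ⋃ T ∈ (PX X).powerset.filter (fun T => ¬Gd22 C X T),
        {ω : Nat.Primes → Bool | pt22 X ω = T} := by
    ext ω
    simp only [Set.mem_ofPred_eq, Set.mem_iUnion, Finset.mem_filter, Finset.mem_powerset,
      exists_prop]
    constructor
    · intro h
      exact ⟨pt22 X ω, ⟨pt_sub22 X ω, h⟩, rfl⟩
    · rintro ⟨T, ⟨-, h⟩, rfl⟩
      exact h
  rw [hU]
  have hm : ∀ T ∈ (PX X).powerset.filter (fun T => ¬Gd22 C X T),
      MeasurableSet {ω : Nat.Primes → Bool | pt22 X ω = T} := fun T hT =>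
    (pt_prob22 (Finset.mem_powerset.1 (Finset.mem_filter.1 hT).1)).1
  refine ⟨Finset.measurableSet_biUnion _ hm, ?_⟩
  rw [measure_biUnion_finset ?_ hm]
  · rw [Finset.sum_congr rfl fun T hT =>
      (pt_prob22 (Finset.mem_powerset.1 (Finset.mem_filter.1 hT).1)).2]
    simp [Finset.sum_const, nsmul_eq_mul]
  · intro T _ T' _ hne
    refine Set.disjoint_left.2 fun ω h1 h2 => hne ?_
    rw [← h1, ← h2]

open Classical in
theorem finite_model_L (C η : ℝ) (hη : 0 < η) : ∃ X : ℕ,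
    (((PX X).powerset.filter fun T => ¬((∃ n ∈ Finset.Icc 1 X, C * Real.sqrt n ≤ ∑ m ∈ Finset.Icc 1 n, CM T m) ∧
      ∃ n ∈ Finset.Icc 1 X, ∑ m ∈ Finset.Icc 1 n, CM T m ≤ -(C * Real.sqrt n))).card : ℝ) ≤ η * 2 ^ (PX X).card := by
  have hanti : Antitone fun X : ℕ => {ω : Nat.Primes → Bool | ¬Gd22 C X (pt22 X ω)} := by
    intro X X' hX ω hω h
    exact hω (Gd_mono22 hX h)
  have hlim := tendsto_measure_iInter_atTop (μ := PP22)
    (fun X => (bad_prob22 C X).1.nullMeasurableSet) hanti ⟨0, measure_ne_top _ _⟩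
  have hnull : PP22 (⋂ X : ℕ, {ω : Nat.Primes → Bool | ¬Gd22 C X (pt22 X ω)}) = 0 := by
    rw [measure_eq_zero_iff_ae_notMem]
    filter_upwards [ae_good22 C] with ω hω h
    obtain ⟨X, hX⟩ := hω
    exact Set.mem_iInter.1 h X hX
  rw [hnull] at hlim
  obtain ⟨X, hX⟩ := (hlim.eventually (gt_mem_nhds (ENNReal.ofReal_pos.2 hη))).exists
  refine ⟨X, ?_⟩
  rw [Function.comp_apply, (bad_prob22 C X).2] at hX
  suffices hs : (((PX X).powerset.filter fun T => ¬Gd22 C X T).card : ℝ) ≤ η * 2 ^ (PX X).card by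
    unfold Gd22 at hs
    convert hs
  have h2 : (((PX X).powerset.filter fun T => ¬Gd22 C X T).card : ENNReal) *
      (1 / 2) ^ (PX X).card = ENNReal.ofReal
        ((((PX X).powerset.filter fun T => ¬Gd22 C X T).card : ℝ) * (1 / 2) ^ (PX X).card) := by
    rw [ENNReal.ofReal_mul (by positivity), ENNReal.ofReal_natCast,
      ENNReal.ofReal_pow (by norm_num)]
    congr 2
    rw [ENNReal.ofReal_div_of_pos (by norm_num)]
    simp
  rw [h2, ENNReal.ofReal_lt_ofReal_iff hη] at hX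
  have h3 : (0 : ℝ) < 2 ^ (PX X).card := by positivity
  rw [one_div, inv_pow] at hX
  rw [← div_le_iff₀ h3, div_eq_mul_inv]
  exact hX.le

end Pool.Agent.QT
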